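import Pool.Agent.Q42.EB.LOW
import Pool.Agent.Q42.EB.SEQ
import Pool.Agent.Q42.EB.LIST

/-! The exact value of `disc(n)` for finite interval splitting strategies. -/

set_option autoImplicit false

namespace Pool.Agent.Results.MP_eb524a_co.ExactFiniteDisc

open Pool.Agent.Q42.EB

/-- The discrepancy of a partition: the largest quotient of the lengths of two of its intervals. -/
noncomputable def disc (l : List ℝ) : ℝ := sSup {r | ∃ x ∈ l, ∃ y ∈ l, r = x / y}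

/-- `disc(S)` for a strategy of length `n`: the maximum of `disc (S t)` for `1 ≤ t ≤ n`. -/
noncomputable def discUpTo (n : ℕ) (S : ℕ → List ℝ) : ℝ :=
  sSup {r | ∃ t, 1 ≤ t ∧ t ≤ n ∧ r = disc (S t)}

lemma ratio_finite (l : List ℝ) : {r | ∃ x ∈ l, ∃ y ∈ l, r = x / y}.Finite := by
  have : {r | ∃ x ∈ l, ∃ y ∈ l, r = x / y} =
      (fun p : ℝ × ℝ => p.1 / p.2) '' ({x | x ∈ l} ×ˢ {y | y ∈ l}) := by
    ext r
    constructor
    · rintro ⟨x, hx, y, hy, rfl⟩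
      exact ⟨(x, y), ⟨hx, hy⟩, rfl⟩
    · rintro ⟨⟨x, y⟩, ⟨hx, hy⟩, rfl⟩
      exact ⟨x, hx, y, hy, rfl⟩
  rw [this]
  exact ((List.finite_toSet l).prod (List.finite_toSet l)).image _

lemma disc_finite (n : ℕ) (S : ℕ → List ℝ) :
    {r | ∃ t, 1 ≤ t ∧ t ≤ n ∧ r = disc (S t)}.Finite := by
  refine ((Set.finite_Icc 1 n).image (fun t => disc (S t))).subset ?_
  rintro r ⟨t, h1, h2, rfl⟩
  exact ⟨t, ⟨h1, h2⟩, rfl⟩

lemma le_discUpTo {n : ℕ} {S : ℕ → List ℝ} (hS : IsStrategyUpTo n S) {t : ℕ} (h1 : 1 ≤ t)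
    (h2 : t ≤ n) {x y : ℝ} (hx : x ∈ S t) (hy : y ∈ S t) : x ≤ discUpTo n S * y := by
  have hy0 : 0 < y := (hS.part t h1 h2).1 y hy
  rw [← div_le_iff₀ hy0]
  refine le_trans (le_csSup (ratio_finite (S t)).bddAbove ⟨x, hx, y, hy, rfl⟩) ?_
  exact le_csSup (disc_finite n S).bddAbove ⟨t, h1, h2, rfl⟩

lemma discUpTo_le {n : ℕ} {S : ℕ → List ℝ} (hS : IsStrategyUpTo n S) {D : ℝ} (hD : 0 ≤ D)
    (h : ∀ t, 1 ≤ t → t ≤ n → ∀ x ∈ S t, ∀ y ∈ S t, x ≤ D * y) : discUpTo n S ≤ D := by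
  refine Real.sSup_le ?_ hD
  rintro r ⟨t, h1, h2, rfl⟩
  refine Real.sSup_le ?_ hD
  rintro r ⟨x, hx, y, hy, rfl⟩
  rw [div_le_iff₀ ((hS.part t h1 h2).1 y hy)]
  exact h t h1 h2 x hx y hy

/-- A strategy of length `2 m` all of whose partitions have discrepancy at most `2 ^ (1 - 1 / m)`. -/
lemma exists_strategy (m : ℕ) (hm : 1 ≤ m) : ∃ S : ℕ → List ℝ, IsStrategyUpTo (2 * m) S ∧
    ∀ t, 1 ≤ t → t ≤ 2 * m → ∀ x ∈ S t, ∀ y ∈ S t, x ≤ (2 : ℝ) ^ (1 - 1 / (m : ℝ)) * y := by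
  obtain ⟨a, h0, h1, h2, h3, h4⟩ := t_SEQ m hm
  obtain ⟨S, hS, hl⟩ := t_LIST (2 * m) a h0 h1 h2
  refine ⟨S, hS, fun t ht ht2 x hx y hy => ?_⟩
  have hq : (0 : ℝ) < (2 : ℝ) ^ (1 - 1 / (m : ℝ)) := Real.rpow_pos_of_pos (by norm_num) _
  have hmem : ∀ z ∈ S t, ∃ i, i < t ∧ a (t + i) = z := by
    intro z hz
    have : z ∈ (S t : Multiset ℝ) := by simpa using hz
    rw [hl t ht ht2, Multiset.mem_map] at this
    obtain ⟨i, hi, rfl⟩ := this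
    exact ⟨i, Multiset.mem_range.1 hi, rfl⟩
  obtain ⟨i, hi, rfl⟩ := hmem x hx
  obtain ⟨j, hj, rfl⟩ := hmem y hy
  calc a (t + i) ≤ a t := h3 t (t + i) ht (by omega) (by omega)
    _ ≤ (2 : ℝ) ^ (1 - 1 / (m : ℝ)) * a (2 * t - 1) := h4 t ht ht2
    _ ≤ (2 : ℝ) ^ (1 - 1 / (m : ℝ)) * a (t + j) :=
      mul_le_mul_of_nonneg_left (h3 (t + j) (2 * t - 1) (by omega) (by omega) (by omega)) hq.le

/-- For every `n ≥ 1` the minimum of `disc(S)` over all strategies `S` of length `n` exists and is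
`2 ^ (1 - 1 / ⌈n / 2⌉)`. -/
theorem result : ∀ n : ℕ, 1 ≤ n →
    IsLeast {r | ∃ S : ℕ → List ℝ, IsStrategyUpTo n S ∧ r = discUpTo n S}
      ((2 : ℝ) ^ (1 - 1 / (⌈(n : ℝ) / 2⌉₊ : ℝ))) := by
  intro n hn
  have hc : ⌈(n : ℝ) / 2⌉₊ = (n + 1) / 2 := by
    rw [Nat.ceil_eq_iff (by omega)]
    have h1 : ((n + 1) / 2 - 1 : ℕ) * 2 < n := by omega
    have h2 : n ≤ (n + 1) / 2 * 2 := by omega
    constructor
    · rw [lt_div_iff₀ (by norm_num)]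
      exact_mod_cast h1
    · rw [div_le_iff₀ (by norm_num)]
      exact_mod_cast h2
  rw [hc]
  have hm : 1 ≤ (n + 1) / 2 := by omega
  have hlow : ∀ S : ℕ → List ℝ, IsStrategyUpTo n S →
      (2 : ℝ) ^ (1 - 1 / (((n + 1) / 2 : ℕ) : ℝ)) ≤ discUpTo n S := fun S hS =>
    t_LOW n ((n + 1) / 2) S (discUpTo n S) hm (by omega) hS
      (fun t h1 h2 x hx y hy => le_discUpTo hS h1 h2 hx hy)
  refine ⟨?_, ?_⟩
  · obtain ⟨S, hS, hr⟩ := exists_strategy ((n + 1) / 2) hm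
    have hS' : IsStrategyUpTo n S :=
      ⟨fun i h1 h2 => hS.part i h1 (by omega), fun i h1 h2 => hS.len i h1 (by omega),
        fun i h1 h2 => hS.cut i h1 (by omega)⟩
    refine ⟨S, hS', le_antisymm (hlow S hS') ?_⟩
    exact discUpTo_le hS' (Real.rpow_pos_of_pos (by norm_num) _).le
      (fun t h1 h2 => hr t h1 (by omega))
  · rintro r ⟨S, hS, rfl⟩
    exact hlow S hS

end Pool.Agent.Results.MP_eb524a_co.ExactFiniteDisc
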