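import Pool.Agent.Q42.EB.LOW
import Pool.Agent.Q42.EB.SEQ
import Pool.Agent.Q42.EB.LIST
import Pool.Agent.Q42.EB.REV
import Pool.Agent.Q42.EB.REVS
import Pool.Agent.Q42.EB.TRANS
import Pool.Agent.Q42.EB.PAT
import Pool.Agent.Q42.EB.CHAIN
import Pool.Agent.Q42.EB.BIS
import Pool.Agent.Q42.EB.NUM
import Pool.Agent.Q42.EB.STAGE
import Pool.Agent.Q42.EB.INIT
import Pool.Agent.Q42.EB.GLUE
import Pool.Agent.Q42.EB.LIFT

/-! For every `ε > 0` there is an infinite interval splitting strategy `S` with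
`n (disc_n(S) - disc(n)) < ε` for infinitely many `n`. -/

set_option autoImplicit false

namespace Pool.Agent.Results.MP_eb524a_co.NoUniformConstant

open Pool.Agent.Q42.EB Filter

/-- An infinite-length strategy `S 1, S 2, …` (the value `S 0` is irrelevant). -/
structure IsStrategy (S : ℕ → List ℝ) : Prop where
  part : ∀ i, 1 ≤ i → IsPartition (S i)
  len : ∀ i, 1 ≤ i → (S i).length = i
  cut : ∀ i, 1 ≤ i → Cut (S i) (S (i + 1))

/-- The discrepancy of a partition: the largest quotient of the lengths of two of its intervals. -/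
noncomputable def disc (l : List ℝ) : ℝ := sSup {r | ∃ x ∈ l, ∃ y ∈ l, r = x / y}

/-- `disc_n(S)`: the maximum of `disc (S t)` for `1 ≤ t ≤ n`. -/
noncomputable def discUpTo (n : ℕ) (S : ℕ → List ℝ) : ℝ :=
  sSup {r | ∃ t, 1 ≤ t ∧ t ≤ n ∧ r = disc (S t)}

/-- `disc(n)`: the minimum of `disc_n(S)` over all strategies of length `n`. -/
noncomputable def discMin (n : ℕ) : ℝ :=
  sInf {r | ∃ S : ℕ → List ℝ, IsStrategyUpTo n S ∧ r = discUpTo n S}

lemma ratio_finite (l : List ℝ) : {r | ∃ x ∈ l, ∃ y ∈ l, r = x / y}.Finite := by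
  have : {r | ∃ x ∈ l, ∃ y ∈ l, r = x / y} =
      (fun p : ℝ × ℝ => p.1 / p.2) '' ({x | x ∈ l} ×ˢ {y | y ∈ l}) := by
    ext r
    constructor
    · rintro ⟨x, hx, y, hy, rfl⟩
      exact ⟨(x, y), ⟨hx, hy⟩, rfl⟩
    · rintro ⟨⟨x, y⟩, ⟨hx, hy⟩, rfl⟩
      exact ⟨x, hx, y, hy, rfl⟩
  rw [this]
  exact ((List.finite_toSet l).prod (List.finite_toSet l)).image _

lemma disc_finite (n : ℕ) (S : ℕ → List ℝ) :
    {r | ∃ t, 1 ≤ t ∧ t ≤ n ∧ r = disc (S t)}.Finite := by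
  refine ((Set.finite_Icc 1 n).image (fun t => disc (S t))).subset ?_
  rintro r ⟨t, h1, h2, rfl⟩
  exact ⟨t, ⟨h1, h2⟩, rfl⟩

lemma le_discUpTo {n : ℕ} {S : ℕ → List ℝ} (hS : IsStrategyUpTo n S) {t : ℕ} (h1 : 1 ≤ t)
    (h2 : t ≤ n) {x y : ℝ} (hx : x ∈ S t) (hy : y ∈ S t) : x ≤ discUpTo n S * y := by
  have hy0 : 0 < y := (hS.part t h1 h2).1 y hy
  rw [← div_le_iff₀ hy0]
  refine le_trans (le_csSup (ratio_finite (S t)).bddAbove ⟨x, hx, y, hy, rfl⟩) ?_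
  exact le_csSup (disc_finite n S).bddAbove ⟨t, h1, h2, rfl⟩

lemma discUpTo_le {n : ℕ} {S : ℕ → List ℝ} (hS : IsStrategyUpTo n S) {D : ℝ} (hD : 0 ≤ D)
    (h : ∀ t, 1 ≤ t → t ≤ n → ∀ x ∈ S t, ∀ y ∈ S t, x ≤ D * y) : discUpTo n S ≤ D := by
  refine Real.sSup_le ?_ hD
  rintro r ⟨t, h1, h2, rfl⟩
  refine Real.sSup_le ?_ hD
  rintro r ⟨x, hx, y, hy, rfl⟩
  rw [div_le_iff₀ ((hS.part t h1 h2).1 y hy)]
  exact h t h1 h2 x hx y hy

lemma IsStrategy.upTo {S : ℕ → List ℝ} (hS : IsStrategy S) (n : ℕ) : IsStrategyUpTo n S :=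
  ⟨fun i h _ => hS.part i h, fun i h _ => hS.len i h, fun i h _ => hS.cut i h⟩

/-- the lower bound for strategies of length `n` -/
lemma lower {n : ℕ} (hn : 1 ≤ n) {S : ℕ → List ℝ} (hS : IsStrategyUpTo n S) :
    2 - 4 * Real.log 2 / n ≤ discUpTo n S := by
  have hm : 1 ≤ (n + 1) / 2 := by omega
  have h := t_LOW n ((n + 1) / 2) S (discUpTo n S) hm (by omega) hS
    (fun t h1 h2 x hx y hy => le_discUpTo hS h1 h2 hx hy)
  refine le_trans ?_ h
  have hn0 : (0 : ℝ) < n := by exact_mod_cast hn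
  have hm0 : (n : ℝ) / 2 ≤ (((n + 1) / 2 : ℕ) : ℝ) := by
    rw [div_le_iff₀ (by norm_num)]
    have : n ≤ (n + 1) / 2 * 2 := by omega
    exact_mod_cast this
  have hm1 : 1 / (((n + 1) / 2 : ℕ) : ℝ) ≤ 2 / n := by
    rw [div_le_div_iff₀ (by linarith) hn0]
    linarith
  have h1 : (2 : ℝ) ^ (1 - 2 / (n : ℝ)) ≤ (2 : ℝ) ^ (1 - 1 / (((n + 1) / 2 : ℕ) : ℝ)) :=
    Real.rpow_le_rpow_of_exponent_le (by norm_num) (by linarith)
  refine le_trans ?_ h1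
  rw [Real.rpow_sub (by norm_num), Real.rpow_one]
  have h2 : (2 : ℝ) ^ (2 / (n : ℝ)) = Real.exp (Real.log 2 * (2 / n)) := by
    rw [Real.rpow_def_of_pos (by norm_num)]
  have h3 := Real.add_one_le_exp (-(Real.log 2 * (2 / (n : ℝ))))
  have h4 : 4 * Real.log 2 / (n : ℝ) = 2 * (Real.log 2 * (2 / n)) := by ring
  have h5 : (2 : ℝ) / Real.exp (Real.log 2 * (2 / n)) = 2 * Real.exp (-(Real.log 2 * (2 / n))) := by
    rw [Real.exp_neg, div_eq_mul_inv]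
  rw [h2, h5, h4]
  linarith

lemma exists_upTo (n : ℕ) (hn : 1 ≤ n) : ∃ S : ℕ → List ℝ, IsStrategyUpTo n S := by
  obtain ⟨a, h0, h1, h2, h3, h4⟩ := t_SEQ n hn
  obtain ⟨S, hS, -⟩ := t_LIST (2 * n) a h0 h1 h2
  exact ⟨S, fun i h1 h2 => hS.part i h1 (by omega), fun i h1 h2 => hS.len i h1 (by omega),
    fun i h1 h2 => hS.cut i h1 (by omega)⟩

lemma le_discMin {n : ℕ} (hn : 1 ≤ n) : 2 - 4 * Real.log 2 / n ≤ discMin n := by
  refine le_csInf ?_ ?_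
  · obtain ⟨S, hS⟩ := exists_upTo n hn
    exact ⟨_, S, hS, rfl⟩
  · rintro r ⟨S, hS, rfl⟩
    exact lower hn hS

lemma discMin_le {n : ℕ} (hn : 1 ≤ n) {S : ℕ → List ℝ} (hS : IsStrategyUpTo n S) :
    discMin n ≤ discUpTo n S := by
  refine csInf_le ⟨2 - 4 * Real.log 2 / n, ?_⟩ ⟨S, hS, rfl⟩
  rintro r ⟨S', hS', rfl⟩
  exact lower hn hS'

/-- strategies whose discrepancy is at most `2 - 4 b / (2 n)` up to time `2 n`, for infinitely many `n` -/
theorem upper (b : ℝ) (hb0 : 0 < b) (hb : b < Real.log 2) : ∃ S : ℕ → List ℝ, IsStrategy S ∧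
    ∀ N : ℕ, ∃ n : ℕ, N ≤ n ∧ 1 ≤ n ∧ discUpTo (2 * n) S ≤ 2 - 2 * b / n := by
  obtain ⟨f, hf1, hfc, hfB⟩ := t_GLUE t_TRANS b hb0 hb (t_INIT b hb0 hb)
    (fun M hM N => t_STAGE t_REV (t_REVS) t_TRANS t_PAT t_CHAIN t_BIS t_NUM b M hb0 hb hM N)
  obtain ⟨S, h1, h2, h3, h4⟩ := t_LIFT f hf1 hfc
  have hS : IsStrategy S := ⟨h1, h2, h3⟩
  refine ⟨S, hS, fun N => ?_⟩
  obtain ⟨n, hN, hn, hB⟩ := hfB N
  refine ⟨n, hN, hn, ?_⟩
  have hlog : Real.log 2 < 1 := by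
    have := Real.log_two_lt_d9
    linarith
  have hn0 : (1 : ℝ) ≤ n := by exact_mod_cast hn
  refine discUpTo_le (hS.upTo (2 * n)) ?_ ?_
  · have : 2 * b / (n : ℝ) ≤ 2 := by
      rw [div_le_iff₀ (by linarith)]
      nlinarith
    linarith
  · intro t ht1 ht2 x hx y hy
    have hB' := (hB t ht1 ht2).2
    refine hB' x ?_ y ?_
    · rw [← h4 t ht1]; simpa using hx
    · rw [← h4 t ht1]; simpa using hy

/-- For every infinite strategy `S`: `disc_n(S) ≥ disc(n) ≥ 2 - 4 log 2 / n`; and for every `ε > 0` there is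
an infinite strategy `S` with `n (disc_n(S) - disc(n)) < ε` and `disc_n(S) < 2 - (4 log 2 - ε) / n` for
infinitely many `n`. -/
theorem result :
    (∀ S : ℕ → List ℝ, IsStrategy S → ∀ n : ℕ, 1 ≤ n →
      2 - 4 * Real.log 2 / n ≤ discMin n ∧ discMin n ≤ discUpTo n S) ∧
    ∀ ε : ℝ, 0 < ε → ∃ S : ℕ → List ℝ, IsStrategy S ∧
      ∃ᶠ n : ℕ in atTop, (n : ℝ) * (discUpTo n S - discMin n) < ε ∧
        discUpTo n S < 2 - (4 * Real.log 2 - ε) / n := by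
  refine ⟨fun S hS n hn => ⟨le_discMin hn, discMin_le hn (hS.upTo n)⟩, fun ε hε => ?_⟩
  have hlog : 0 < Real.log 2 := Real.log_pos (by norm_num)
  obtain ⟨b, hb1, hb2⟩ := exists_between (show max (Real.log 2 - ε / 4) 0 < Real.log 2 from
    max_lt (by linarith) hlog)
  have hb0 : 0 < b := lt_of_le_of_lt (le_max_right _ _) hb1
  have hbε : Real.log 2 - ε / 4 < b := lt_of_le_of_lt (le_max_left _ _) hb1
  obtain ⟨S, hS, h⟩ := upper b hb0 hb2
  refine ⟨S, hS, ?_⟩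
  rw [frequently_atTop]
  intro N
  obtain ⟨n, hN, hn, hle⟩ := h N
  refine ⟨2 * n, by omega, ?_⟩
  have hn0 : (0 : ℝ) < n := by exact_mod_cast hn
  have hl := le_discMin (n := 2 * n) (by omega)
  push_cast at hl ⊢
  have e1 : 2 * b / (n : ℝ) = 4 * b / (2 * n) := by
    field_simp
    ring
  rw [e1] at hle
  have h1 : discUpTo (2 * n) S - discMin (2 * n) ≤ (4 * Real.log 2 - 4 * b) / (2 * n) := by
    rw [sub_div]
    linarith
  refine ⟨?_, ?_⟩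
  · calc 2 * (n : ℝ) * (discUpTo (2 * n) S - discMin (2 * n))
        ≤ 2 * (n : ℝ) * ((4 * Real.log 2 - 4 * b) / (2 * n)) :=
          mul_le_mul_of_nonneg_left h1 (by positivity)
      _ = 4 * Real.log 2 - 4 * b := by field_simp
      _ < ε := by linarith
  · have h2 : (4 * Real.log 2 - ε) / (2 * (n : ℝ)) < 4 * b / (2 * n) :=
      div_lt_div_of_pos_right (by linarith) (by positivity)
    linarith

end Pool.Agent.Results.MP_eb524a_co.NoUniformConstant
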